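import Pool.Agent.W495.DC.Core

/-!
# Deligne's conjecture for critical potentially CM motives

A motive over `ℚ` is potentially CM if it belongs to the tensor category generated by the Artin
motives and by the abelian varieties over `ℚ` that have complex multiplication over `ℚ̄`. For every
critical potentially CM motive `M` with rational coefficients, of weight different from `-1`, the value
`L(M, 0)` is a rational multiple of `c⁺(M)`. Classes of type `(p, p)` are allowed.

After an extension of the coefficients `M` is, in the Grothendieck group, an integral combination of
critical motives attached to algebraic Hecke characters of number fields. Deligne's conjecture is known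
for these (Siegel and Klingen; Blasius, Harder), and their values at `0` do not vanish if the weight is
not `-1`. The coefficient in the larger field is rational, because all its conjugates are equal.
-/

namespace Pool.Agent.Results.MP_b696eb_nt.PotentiallyCM

open Pool.Agent.W495.DC

/-- `L(M, 0) ∈ ℚ c⁺(M)` for every critical potentially CM motive `M` of weight `w ≠ -1`. -/
theorem result (T : Motives) (hT : IsMotives T) (hB : HasBrauerAtZero T) (M : T.Mot ℚ)
    (hM : T.IsPotCM M) (hne : (T.inv M).types.Nonempty) (hm : (T.inv M).IsCriticalAtZero)
    (hw : (T.inv M).w ≠ -1) :
    ∃ r : ℚ, ∀ σ : ℚ →+* ℂ, (T.inv M).L 0 σ = (r : ℂ) * (T.inv M).c true σ := by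
  obtain ⟨r, hr⟩ := main_zero hT hB M hM hne hm hw
  refine ⟨r, fun σ => ?_⟩
  have h : sgn 0 = true := by decide
  rw [hr σ, zero_mul, zpow_zero, one_mul, eq_ratCast σ r, h]

end Pool.Agent.Results.MP_b696eb_nt.PotentiallyCM
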